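import Mathlib
import Pool.Agent.Helper325.OpeningInf
import Pool.Agent.Helper325.KKMFinite

/-!
Opening (gap) of subspaces and equality of dimensions: the constant `14/25 > 1/2` works.
-/

namespace Pool.Agent.Results.MP_ec11a7_an.OpeningConstant

open Cardinal Set

universe u v

variable {𝕜 : Type v} [RCLike 𝕜] {E : Type u} [NormedAddCommGroup E] [NormedSpace 𝕜 E]

/-- The distance `ρ(x, G)` from a point to a subspace. -/
noncomputable def rho (x : E) (G : Submodule 𝕜 E) : ℝ := Metric.infDist x (G : Set E)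

/-- The opening `θ(G₁, G₂)`. -/
noncomputable def opening (G₁ G₂ : Submodule 𝕜 E) : ℝ :=
  max (⨆ x : {x : E // x ∈ G₁ ∧ ‖x‖ = 1}, rho (x : E) G₂)
    (⨆ y : {y : E // y ∈ G₂ ∧ ‖y‖ = 1}, rho (y : E) G₁)

/-- Density character: the smallest cardinality of a dense subset. -/
noncomputable def densityCharacter (X : Type u) [TopologicalSpace X] : Cardinal.{u} :=
  sInf {c | ∃ s : Set X, Dense s ∧ #s = c}

open Classical in
/-- Dimension: the linear dimension for a finite-dimensional subspace, the density character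
for an infinite-dimensional one. -/
noncomputable def dimension (G : Submodule 𝕜 E) : Cardinal.{u} :=
  if FiniteDimensional 𝕜 G then (Module.finrank 𝕜 G : Cardinal.{u}) else densityCharacter G

theorem rho_le_norm (x : E) (G : Submodule 𝕜 E) : rho x G ≤ ‖x‖ := by
  have := Metric.infDist_le_dist_of_mem (x := x) (G.zero_mem : (0 : E) ∈ (G : Set E))
  simpa [rho] using this

theorem opening_comm (G₁ G₂ : Submodule 𝕜 E) : opening G₁ G₂ = opening G₂ G₁ := max_comm _ _

theorem rho_smul (c : 𝕜) (x : E) (G : Submodule 𝕜 E) : ∀ δ > 0, rho (c • x) G ≤ ‖c‖ * rho x G + δ := by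
  intro δ hδ
  have hne : (G : Set E).Nonempty := ⟨0, G.zero_mem⟩
  have hc : (0 : ℝ) < ‖c‖ + 1 := by positivity
  obtain ⟨y, hy, hxy⟩ := (Metric.infDist_lt_iff hne (x := x) (r := rho x G + δ / (‖c‖ + 1))).mp
    (by have : 0 < δ / (‖c‖ + 1) := by positivity
        simp only [rho]; linarith)
  have h1 : rho (c • x) G ≤ dist (c • x) (c • y) := Metric.infDist_le_dist_of_mem (G.smul_mem c hy)
  rw [dist_smul₀] at h1
  have h2 : ‖c‖ * dist x y ≤ ‖c‖ * (rho x G + δ / (‖c‖ + 1)) :=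
    mul_le_mul_of_nonneg_left hxy.le (norm_nonneg _)
  have h3 : ‖c‖ * (δ / (‖c‖ + 1)) ≤ δ := by
    rw [mul_div_assoc', div_le_iff₀ hc]
    nlinarith [norm_nonneg c]
  nlinarith

theorem approx_of_opening {G₁ G₂ : Submodule 𝕜 E} (h : opening G₁ G₂ < 14 / 25) :
    ∀ x ∈ G₁, ∀ δ : ℝ, 0 < δ → ∃ y ∈ G₂, ‖x - y‖ ≤ 14 / 25 * ‖x‖ + δ := by
  intro x hx δ hδ
  rcases eq_or_ne x 0 with rfl | hx0
  · exact ⟨0, G₂.zero_mem, by simpa using hδ.le⟩
  have hn : (0 : ℝ) < ‖x‖ := norm_pos_iff.mpr hx0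
  set c : 𝕜 := ((‖x‖ : ℝ) : 𝕜)⁻¹ with hc
  have hcn : ‖c‖ = ‖x‖⁻¹ := by rw [hc, norm_inv, RCLike.norm_ofReal, abs_of_pos hn]
  have hu1 : ‖c • x‖ = 1 := by rw [norm_smul, hcn]; exact inv_mul_cancel₀ hn.ne'
  have hbdd : BddAbove (range fun x : {x : E // x ∈ G₁ ∧ ‖x‖ = 1} => rho (x : E) G₂) := by
    refine ⟨1, ?_⟩
    rintro _ ⟨z, rfl⟩
    exact (rho_le_norm _ _).trans z.2.2.le
  have h1 : rho (c • x) G₂ < 14 / 25 := by
    refine lt_of_le_of_lt ?_ h
    exact (le_ciSup hbdd ⟨c • x, G₁.smul_mem c hx, hu1⟩).trans (le_max_left _ _)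
  have hne : (G₂ : Set E).Nonempty := ⟨0, G₂.zero_mem⟩
  obtain ⟨y, hy, hxy⟩ := (Metric.infDist_lt_iff hne).mp h1
  have hcc : ((‖x‖ : ℝ) : 𝕜) * c = 1 := by
    rw [hc]
    exact mul_inv_cancel₀ (by simpa using hx0)
  refine ⟨((‖x‖ : ℝ) : 𝕜) • y, G₂.smul_mem _ hy, ?_⟩
  have h2 : x - ((‖x‖ : ℝ) : 𝕜) • y = ((‖x‖ : ℝ) : 𝕜) • (c • x - y) := by
    rw [smul_sub, smul_smul, hcc, one_smul]
  rw [h2, norm_smul, RCLike.norm_ofReal, abs_of_pos hn]
  rw [dist_eq_norm] at hxy
  nlinarith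

/-- dense subsets of nonzero subspaces are infinite -/
theorem aleph0_le_density {G : Submodule 𝕜 E} (hG : G ≠ ⊥) : ℵ₀ ≤ densityCharacter G := by
  have hnt : Nontrivial G := Submodule.nontrivial_iff_ne_bot.mpr hG
  obtain ⟨x₀, hx₀⟩ := exists_ne (0 : G)
  have hinf : Infinite G := Infinite.of_injective (fun c : 𝕜 => c • x₀) (smul_left_injective 𝕜 hx₀)
  refine le_csInf ⟨_, Set.univ, dense_univ, rfl⟩ ?_
  rintro c ⟨s, hs, rfl⟩
  rw [aleph0_le_mk_iff]
  by_contra hfin
  rw [not_infinite_iff_finite] at hfin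
  have hsf : s.Finite := hfin
  have : s = Set.univ := by
    have := hs.closure_eq
    rwa [hsf.isClosed.closure_eq] at this
  rw [this] at hsf
  exact not_finite_iff_infinite.mpr hinf (finite_univ_iff.mp hsf)

/-- a closed span of at most `κ` vectors has density character at most `κ` -/
theorem density_le_of_span {κ : Cardinal.{u}} (hκ : ℵ₀ ≤ κ) {G : Submodule 𝕜 E} {s : Set E}
    (hs : s ⊆ G) (hsκ : #s ≤ κ) (hG : G ≤ (Submodule.span 𝕜 s).topologicalClosure) :
    densityCharacter G ≤ κ := by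
  -- countable dense subsets of the spans of finite lists
  have hsep : ∀ l : List s, ∃ c : Set E, c.Countable ∧ c ⊆ Submodule.span 𝕜 {x : E | ∃ y ∈ l, (y : E) = x} ∧
      (Submodule.span 𝕜 {x : E | ∃ y ∈ l, (y : E) = x} : Set E) ⊆ closure c := by
    intro l
    have hfin : {x : E | ∃ y ∈ l, (y : E) = x}.Finite := by
      have : {x : E | ∃ y ∈ l, (y : E) = x} = (fun y : s => (y : E)) '' {y | y ∈ l} := by
        ext x; simp
      rw [this]
      exact (List.finite_toSet l).image _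
    have : TopologicalSpace.IsSeparable (Submodule.span 𝕜 {x : E | ∃ y ∈ l, (y : E) = x} : Set E) :=
      (hfin.countable.isSeparable).span
    obtain ⟨c, hc1, hc2, hc3⟩ := this.exists_countable_dense_subset
    exact ⟨c, hc2, hc1, hc3⟩
  choose c hc1 hc2 hc3 using hsep
  set T : Set E := ⋃ l, c l with hT
  have hTκ : #T ≤ κ := by
    refine (mk_iUnion_le c).trans ?_
    have h1 : (⨆ l, #(c l)) ≤ ℵ₀ := ciSup_le' fun l => (hc1 l).le_aleph0
    have h2 : #(List s) ≤ κ := (mk_list_le_max s).trans (max_le hκ hsκ)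
    calc #(List s) * ⨆ l, #(c l) ≤ κ * κ := mul_le_mul' h2 (h1.trans hκ)
      _ = κ := mul_eq_self hκ
  have hTG : T ⊆ G := by
    intro x hx
    obtain ⟨l, hl⟩ := mem_iUnion.mp hx
    have := hc2 l hl
    refine (Submodule.span_le.mpr ?_) this
    rintro _ ⟨y, -, rfl⟩
    exact hs y.2
  have hspan : (Submodule.span 𝕜 s : Set E) ⊆ closure T := by
    intro x hx
    obtain ⟨t, hts, hxt⟩ := Submodule.mem_span_finite_of_mem_span hx
    set l : List s := t.attach.toList.map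
      (fun y : {x : E // x ∈ t} => (⟨(y : E), hts y.2⟩ : s)) with hl
    have hsub : (Submodule.span 𝕜 (t : Set E)) ≤
        Submodule.span 𝕜 {x : E | ∃ y ∈ l, (y : E) = x} := by
      refine Submodule.span_mono ?_
      intro y hy
      exact ⟨⟨y, hts hy⟩, by simpa [hl] using hy, rfl⟩
    exact closure_mono (subset_iUnion c l) (hc3 l (hsub hxt))
  have hGT : (G : Set E) ⊆ closure T := by
    intro x hx
    have h1 : x ∈ closure (Submodule.span 𝕜 s : Set E) := hG hx
    exact closure_minimal hspan isClosed_closure h1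
  -- transfer to the subtype
  set t : Set G := {x | (x : E) ∈ T} with ht
  have hdense : Dense t := by
    intro x
    rw [closure_subtype]
    have himg : ((fun x : G => (x : E)) '' t) = T := by
      ext y
      constructor
      · rintro ⟨z, hz, rfl⟩; exact hz
      · intro hy; exact ⟨⟨y, hTG hy⟩, hy, rfl⟩
    rw [himg]
    exact hGT x.2
  have htκ : #t ≤ κ := by
    refine le_trans ?_ hTκ
    exact mk_le_of_injective (f := fun x : t => (⟨((x : G) : E), x.2⟩ : T)) (by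
      intro x y hxy
      have : ((x : G) : E) = ((y : G) : E) := congrArg (fun z : T => (z : E)) hxy
      exact Subtype.ext (Subtype.ext this))
  have hmem : #t ∈ {c | ∃ s : Set G, Dense s ∧ #s = c} := ⟨t, hdense, rfl⟩
  exact (csInf_le' hmem).trans htκ

theorem density_le {G₁ G₂ : Submodule 𝕜 E} (h₁ : G₁ ≠ ⊥) (h : opening G₁ G₂ < 14 / 25) :
    densityCharacter G₂ ≤ densityCharacter G₁ := by
  have hκ := aleph0_le_density h₁
  obtain ⟨D, hD, hDc⟩ : densityCharacter G₁ ∈ {c | ∃ s : Set G₁, Dense s ∧ #s = c} :=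
    csInf_mem ⟨_, Set.univ, dense_univ, rfl⟩
  obtain ⟨s, hs, hsκ, hG⟩ := Pool.Agent.Helper325.OpeningInf.key (𝕜 := 𝕜)
    (κ := densityCharacter G₁) hκ (G₁ := G₁) (G₂ := G₂)
    (D := (fun x : G₁ => (x : E)) '' D) (by rintro _ ⟨x, -, rfl⟩; exact x.2)
    (mk_image_le.trans hDc.le) (by
      intro x hx δ hδ
      obtain ⟨y, hy, hd⟩ := hD.exists_dist_lt (⟨x, hx⟩ : G₁) hδ
      refine ⟨y, ⟨y, hy, rfl⟩, ?_⟩
      rw [Subtype.dist_eq, dist_eq_norm] at hd
      exact hd.le)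
    (approx_of_opening h) (approx_of_opening (by rwa [opening_comm]))
  exact density_le_of_span hκ hs hsκ hG

/-- the finite-dimensional case (Krein, Krasnoselsky, Milman), from the Borsuk-Ulam theorem -/
theorem finite_case {G₁ G₂ : Submodule 𝕜 E} [FiniteDimensional 𝕜 G₁]
    (h : opening G₁ G₂ < 14 / 25) :
    FiniteDimensional 𝕜 G₂ ∧ Module.finrank 𝕜 G₂ ≤ Module.finrank 𝕜 G₁ := by
  by_contra hcon
  have hrank : ((Module.finrank 𝕜 G₁ + 1 : ℕ) : Cardinal.{u}) ≤ Module.rank 𝕜 G₂ := by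
    by_cases hfd : FiniteDimensional 𝕜 G₂
    · have h1 : Module.finrank 𝕜 G₁ < Module.finrank 𝕜 G₂ := by
        by_contra h2
        exact hcon ⟨hfd, not_lt.mp h2⟩
      rw [← Module.finrank_eq_rank]
      exact_mod_cast h1
    · have h1 : ℵ₀ ≤ Module.rank 𝕜 G₂ := by
        by_contra h2
        exact hfd (Module.rank_lt_aleph0_iff.mp (not_le.mp h2))
      exact (Cardinal.natCast_le_aleph0).trans h1
  obtain ⟨v, hv⟩ := Module.le_rank_iff.mp hrank
  set v' : Fin (Module.finrank 𝕜 G₁ + 1) → E := fun i => (v i : E) with hv'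
  have hv'i : LinearIndependent 𝕜 v' := hv.map' G₂.subtype (Submodule.ker_subtype _)
  set W : Submodule 𝕜 E := Submodule.span 𝕜 (range v') with hW
  have hWfin : Module.finrank 𝕜 W = Module.finrank 𝕜 G₁ + 1 := by
    rw [hW, finrank_span_eq_card hv'i, Fintype.card_fin]
  have hWG : W ≤ G₂ := by
    rw [hW, Submodule.span_le]
    rintro _ ⟨i, rfl⟩
    exact (v i).2
  have : FiniteDimensional 𝕜 W := FiniteDimensional.span_of_finite 𝕜 (finite_range v')
  have happ := approx_of_opening (G₁ := G₂) (G₂ := G₁) (by rwa [opening_comm])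
  let : NormedSpace ℝ E := NormedSpace.restrictScalars ℝ 𝕜 E
  have : IsScalarTower ℝ 𝕜 E := ⟨fun r c x => by
    change (r • c) • x = (algebraMap ℝ 𝕜 r) • (c • x)
    rw [smul_smul, Algebra.smul_def]⟩
  have : Module.Finite ℝ G₁ := Module.Finite.trans 𝕜 G₁
  have : Module.Finite ℝ W := Module.Finite.trans 𝕜 W
  have : FiniteDimensional ℝ (G₁.restrictScalars ℝ) := ‹Module.Finite ℝ G₁›
  have : FiniteDimensional ℝ (W.restrictScalars ℝ) := ‹Module.Finite ℝ W›
  have h1 : Module.finrank ℝ (G₁.restrictScalars ℝ) =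
      Module.finrank ℝ 𝕜 * Module.finrank 𝕜 G₁ := (Module.finrank_mul_finrank ℝ 𝕜 G₁).symm
  have h2 : Module.finrank ℝ (W.restrictScalars ℝ) =
      Module.finrank ℝ 𝕜 * Module.finrank 𝕜 W := (Module.finrank_mul_finrank ℝ 𝕜 W).symm
  have h3 : 0 < Module.finrank ℝ 𝕜 := Module.finrank_pos
  refine Pool.Agent.Helper325.KKMFinite.kkm_real (G₁.restrictScalars ℝ) (W.restrictScalars ℝ) ?_ ?_
  · rw [h1, h2, hWfin]
    exact Nat.mul_lt_mul_of_pos_left (Nat.lt_succ_self _) h3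
  · intro y hy hy0
    have hn : 0 < ‖y‖ := norm_pos_iff.mpr hy0
    obtain ⟨x, hx, hxy⟩ := happ y (hWG hy) (‖y‖ / 25) (by positivity)
    exact ⟨x, hx, by linarith⟩

/-- **Main theorem.**  The constant `14/25` is larger than `1/2`, and for all nonzero subspaces
`G₁, G₂` of any real or complex normed space, `θ(G₁, G₂) < 14/25` implies
`dim G₁ = dim G₂`. -/
theorem result :
    (1 / 2 : ℝ) < 14 / 25 ∧
      ∀ (𝕜 : Type v) [RCLike 𝕜] (E : Type u) [NormedAddCommGroup E] [NormedSpace 𝕜 E]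
        (G₁ G₂ : Submodule 𝕜 E), G₁ ≠ ⊥ → G₂ ≠ ⊥ → opening G₁ G₂ < 14 / 25 →
          dimension G₁ = dimension G₂ := by
  refine ⟨by norm_num, ?_⟩
  intro 𝕜 _ E _ _ G₁ G₂ h₁ h₂ h
  have h' : opening G₂ G₁ < 14 / 25 := by rwa [opening_comm]
  by_cases hf₁ : FiniteDimensional 𝕜 G₁
  · obtain ⟨hf₂, hle⟩ := finite_case (𝕜 := 𝕜) h
    obtain ⟨-, hle'⟩ := finite_case (𝕜 := 𝕜) h'
    rw [dimension, dimension, if_pos hf₁, if_pos hf₂, le_antisymm hle' hle]
  · have hf₂ : ¬ FiniteDimensional 𝕜 G₂ := by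
      intro hf₂
      exact hf₁ (finite_case (𝕜 := 𝕜) h').1
    rw [dimension, dimension, if_neg hf₁, if_neg hf₂]
    exact le_antisymm (density_le h₂ h') (density_le h₁ h)

end Pool.Agent.Results.MP_ec11a7_an.OpeningConstant
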